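import Pool.Agent.MP_1246c0_nt.H55.SpecA

/-! Binary cubic forms attached to elements of a quadratic field. -/

namespace Pool.Agent.MP_1246c0_nt.H5

open NumberField IsDedekindDomain Pool.Agent.MP_db5b97_nt.H85 Pool.Agent.MP_1246c0_nt.H55

section Field

variable {k : Type} [Field k] [NumberField k]

/-- the data of an attached form, written out -/
structure Dat (s : k) (τ : k ≃ₐ[ℚ] k) (q : ℕ) (δ : k) (f : Fm ℤ) (α β : k) (n : ℚ) : Prop where
  hd : δ ≠ 0
  hn : n ≠ 0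
  det : α * τ β - τ α * β = n * s
  cube : (n : k) ^ 3 = q * (δ * τ δ)
  i0 : IsIntegral ℤ (α ^ 3 / δ)
  i1 : IsIntegral ℤ (α ^ 2 * β / δ)
  i2 : IsIntegral ℤ (α * β ^ 2 / δ)
  i3 : IsIntegral ℤ (β ^ 3 / δ)
  e0 : (f 0 : k) * s = α ^ 3 / δ - τ α ^ 3 / τ δ
  e1 : (f 1 : k) * s = α ^ 2 * β / δ - τ α ^ 2 * τ β / τ δ
  e2 : (f 2 : k) * s = α * β ^ 2 / δ - τ α * τ β ^ 2 / τ δ
  e3 : (f 3 : k) * s = β ^ 3 / δ - τ β ^ 3 / τ δ

variable {s : k} {τ : k ≃ₐ[ℚ] k} {q : ℕ} {δ : k} {f : Fm ℤ} {α β : k} {n : ℚ}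

theorem att_iff : Att s τ q δ f ↔ ∃ α β n, Dat s τ q δ f α β n := by
  constructor
  · rintro ⟨hd, α, β, n, hn, det, cube, h⟩
    exact ⟨α, β, n, hd, hn, det, cube, by simpa using (h 0).1, by simpa using (h 1).1,
      by simpa using (h 2).1, by simpa using (h 3).1, by simpa using (h 0).2,
      by simpa using (h 1).2, by simpa using (h 2).2, by simpa using (h 3).2⟩
  · rintro ⟨α, β, n, h⟩
    refine ⟨h.hd, α, β, n, h.hn, h.det, h.cube, fun i => ?_⟩
    fin_cases i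
    · exact ⟨by simpa using h.i0, by simpa using h.e0⟩
    · exact ⟨by simpa using h.i1, by simpa using h.e1⟩
    · exact ⟨by simpa using h.i2, by simpa using h.e2⟩
    · exact ⟨by simpa using h.i3, by simpa using h.e3⟩

theorem Dat.comb (h : Dat s τ q δ f α β n) (c0 c1 c2 c3 : ℤ) {x : k}
    (e : x = c0 * (α ^ 3 / δ) + c1 * (α ^ 2 * β / δ) + c2 * (α * β ^ 2 / δ) + c3 * (β ^ 3 / δ)) :
    IsIntegral ℤ x := by
  have hc : ∀ c : ℤ, IsIntegral ℤ (c : k) := fun c => isIntegral_algebraMap (x := c)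
  rw [e]
  exact ((((hc _).mul h.i0).add ((hc _).mul h.i1)).add ((hc _).mul h.i2)).add ((hc _).mul h.i3)

theorem Dat.act (h : Dat s τ q δ f α β n) (a b c d : ℤ) (e : a * d - b * c = 1) :
    Dat s τ q δ (act f a b c d) (a * α + c * β) (b * α + d * β) n := by
  have e' : (a : k) * d - b * c = 1 := by exact_mod_cast e
  refine ⟨h.hd, h.hn, ?_, h.cube,
    h.comb (a ^ 3) (3 * a ^ 2 * c) (3 * a * c ^ 2) (c ^ 3) ?_,
    h.comb (a ^ 2 * b) (a ^ 2 * d + 2 * a * b * c) (2 * a * c * d + b * c ^ 2) (c ^ 2 * d) ?_,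
    h.comb (a * b ^ 2) (2 * a * b * d + b ^ 2 * c) (a * d ^ 2 + 2 * b * c * d) (c * d ^ 2) ?_,
    h.comb (b ^ 3) (3 * b ^ 2 * d) (3 * b * d ^ 2) (d ^ 3) ?_, ?_, ?_, ?_, ?_⟩
  · simp only [map_add, map_mul, map_intCast]
    linear_combination h.det + (α * τ β - τ α * β) * e'
  · push_cast
    ring
  · push_cast
    ring
  · push_cast
    ring
  · push_cast
    ring
  · simp only [map_add, map_mul, map_intCast, H55.act, ev, Matrix.cons_val_zero]
    push_cast
    linear_combination (a : k) ^ 3 * h.e0 + 3 * (a : k) ^ 2 * c * h.e1 + 3 * (a : k) * c ^ 2 * h.e2 +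
      (c : k) ^ 3 * h.e3
  · simp only [map_add, map_mul, map_intCast, H55.act, ev, Matrix.cons_val_zero,
      Matrix.cons_val_one]
    push_cast
    linear_combination (a : k) ^ 2 * b * h.e0 + ((a : k) ^ 2 * d + 2 * a * b * c) * h.e1 +
      (2 * (a : k) * c * d + b * c ^ 2) * h.e2 + (c : k) ^ 2 * d * h.e3
  · simp only [map_add, map_mul, map_intCast, H55.act, ev, Matrix.cons_val]
    push_cast
    linear_combination (a : k) * b ^ 2 * h.e0 + (2 * (a : k) * b * d + b ^ 2 * c) * h.e1 +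
      ((a : k) * d ^ 2 + 2 * b * c * d) * h.e2 + (c : k) * d ^ 2 * h.e3
  · simp only [map_add, map_mul, map_intCast, H55.act, ev, Matrix.cons_val]
    push_cast
    linear_combination (b : k) ^ 3 * h.e0 + 3 * (b : k) ^ 2 * d * h.e1 + 3 * (b : k) * d ^ 2 * h.e2 +
      (d : k) ^ 3 * h.e3

theorem Dat.hd' (h : Dat s τ q δ f α β n) : τ δ ≠ 0 := by simpa using h.hd

theorem Dat.hn' (h : Dat s τ q δ f α β n) : (n : k) ≠ 0 := by exact_mod_cast h.hn

theorem Dat.hq (h : Dat s τ q δ f α β n) : (q : k) ≠ 0 := by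
  intro h0
  have := h.cube
  rw [h0, zero_mul] at this
  exact pow_ne_zero 3 h.hn' this

theorem Dat.inv (h : Dat s τ q δ f α β n) : (n : k) ^ 3 * (δ⁻¹ * (τ δ)⁻¹) = q := by
  have h1 := h.hd
  have h2 := h.hd'
  rw [h.cube]
  field_simp

theorem Dat.dsc (h : Dat s τ q δ f α β n) (hs : s ≠ 0) :
    ((dsc f : ℤ) : k) = (q : k) ^ 2 * s ^ 2 := by
  refine mul_right_cancel₀ (pow_ne_zero 4 hs) ?_
  have e : ((H55.dsc f : ℤ) : k) * s ^ 4 =
      ((f 0 * s) * (f 3 * s) - (f 1 * s) * (f 2 * s)) ^ 2 -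
        4 * ((f 0 * s) * (f 2 * s) - (f 1 * s) ^ 2) * ((f 1 * s) * (f 3 * s) - (f 2 * s) ^ 2) := by
    simp only [H55.dsc]
    push_cast
    ring
  have e2 : ((H55.dsc f : ℤ) : k) * s ^ 4 =
      (δ⁻¹ * (τ δ)⁻¹) ^ 2 * (α * τ β - τ α * β) ^ 6 := by
    rw [e, h.e0, h.e1, h.e2, h.e3]
    ring
  rw [e2, h.det, ← h.inv]
  ring

theorem Dat.cov (h : Dat s τ q δ f α β n) (hs : s ≠ 0) :
    (f 0 : k) ^ 2 * f 3 - 3 * f 0 * f 1 * f 2 + 2 * (f 1 : k) ^ 3 =
      q * (f 0 * s - 2 * (α ^ 3 / δ)) := by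
  refine mul_right_cancel₀ (pow_ne_zero 3 hs) ?_
  have e : ((f 0 : k) ^ 2 * f 3 - 3 * f 0 * f 1 * f 2 + 2 * (f 1 : k) ^ 3) * s ^ 3 =
      (f 0 * s) ^ 2 * (f 3 * s) - 3 * (f 0 * s) * (f 1 * s) * (f 2 * s) + 2 * (f 1 * s) ^ 3 := by
    ring
  have e2 : ((f 0 : k) ^ 2 * f 3 - 3 * f 0 * f 1 * f 2 + 2 * (f 1 : k) ^ 3) * s ^ 3 =
      -(δ⁻¹ * (τ δ)⁻¹) * (α ^ 3 / δ + τ α ^ 3 / τ δ) * (α * τ β - τ α * β) ^ 3 := by
    rw [e, h.e0, h.e1, h.e2, h.e3]
    ring
  rw [e2, h.det, ← h.inv, h.e0]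
  ring

theorem Dat.indep (h : Dat s τ q δ f α β n) (hs : s ≠ 0) (x y : ℤ)
    (e : (x : k) * α + y * β = 0) : x = 0 ∧ y = 0 := by
  have e' : (x : k) * τ α + y * τ β = 0 := by
    have := congrArg τ e
    simpa only [map_add, map_mul, map_intCast, map_zero] using this
  have h0 : (n : k) * s ≠ 0 := mul_ne_zero h.hn' hs
  have hx : (x : k) * (n * s) = 0 := by
    linear_combination τ β * e - β * e' - (x : k) * h.det
  have hy : (y : k) * (n * s) = 0 := by
    linear_combination α * e' - τ α * e - (y : k) * h.det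
  exact ⟨by exact_mod_cast (mul_eq_zero.1 hx).resolve_right h0,
    by exact_mod_cast (mul_eq_zero.1 hy).resolve_right h0⟩

theorem Dat.aniso (h : Dat s τ q δ f α β n) (hs : s ≠ 0) (hc : ¬ ∃ y : k, δ = q * y ^ 3) :
    Aniso f := by
  intro x y e
  by_contra hne
  have hξ : (x : k) * α + y * β ≠ 0 := fun h0 => hne (h.indep hs x y h0)
  have e1 : ((ev f x y : ℤ) : k) = 0 := by rw [e, Int.cast_zero]
  simp only [ev] at e1
  push_cast at e1
  have e2 : ((x : k) * α + y * β) ^ 3 / δ = ((x : k) * τ α + y * τ β) ^ 3 / τ δ := by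
    linear_combination s * e1 - (x : k) ^ 3 * h.e0 - 3 * (x : k) ^ 2 * y * h.e1 -
      3 * (x : k) * y ^ 2 * h.e2 - (y : k) ^ 3 * h.e3
  generalize (x : k) * α + y * β = ξ at hξ e2
  generalize (x : k) * τ α + y * τ β = ξ' at e2
  have h1 := h.hd
  have h2 := h.hd'
  have h3 := h.hn'
  have h4 := h.cube
  refine hc ⟨ξ * (ξ * ξ') / (n * (ξ ^ 3 / δ)), ?_⟩
  rw [div_eq_div_iff h1 h2] at e2
  field_simp
  linear_combination ξ ^ 3 * h4 + q * δ * e2

end Field

theorem exists_cube {R : Type} [CommRing R] [IsDedekindDomain R] {J : Ideal R} (hJ : J ≠ ⊥)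
    (h : ∀ w : HeightOneSpectrum R, 3 ∣ multiplicity w.asIdeal J) : ∃ I : Ideal R, J = I ^ 3 := by
  classical
  obtain ⟨u, hu⟩ := Multiset.exists_smul_of_dvd_count
    (UniqueFactorizationMonoid.normalizedFactors J) (k := 3) fun P hP => by
      have hp := UniqueFactorizationMonoid.prime_of_normalized_factor P hP
      have := h ⟨P, Ideal.isPrime_of_prime hp, hp.ne_zero⟩
      rwa [UniqueFactorizationMonoid.multiplicity_eq_count_normalizedFactors hp.irreducible hJ,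
        normalize_eq] at this
  refine ⟨u.prod, ?_⟩
  rw [← Multiset.prod_nsmul, ← hu, Ideal.prod_normalizedFactors_eq_self hJ]

theorem ex (hQ : RowQB) (k : Type) [Field k] [NumberField k] (D : ℕ) (s : k) (τ : k ≃ₐ[ℚ] k)
    (x : Un k) (Q : Ideal (𝓞 k)) (hq : Quad D s τ) (hQ0 : Q ≠ ⊥)
    (h : ∀ w : Sp k, 3 ∣ ord w x + multiplicity w.asIdeal Q) :
    ∃ f, Att s τ (Ideal.absNorm Q) x.val f := by
  obtain ⟨a, ha, b, hb, rfl⟩ := exists_mkI x
  have hc : a * b ^ 2 ≠ 0 := mul_ne_zero ha (pow_ne_zero _ hb)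
  have hc' : Ideal.span {a * b ^ 2} ≠ ⊥ := by simpa using hc
  obtain ⟨I, hI⟩ := exists_cube (J := Ideal.span {a * b ^ 2} * Q) (mul_ne_zero hc' hQ0) fun w => by
    have e1 : mkI (a * b ^ 2) hc = (mkI a ha - mkI b hb) + 3 • mkI b hb := by
      have hb' : (b : k) ≠ 0 := by simpa using hb
      refine Un.ext ?_
      simp only [val_mkI, Un.val_add, Un.val_sub, Un.val_nsmul, map_mul, map_pow]
      field_simp
    have e2 := ord_mkI w _ hc
    rw [e1, map_add, map_nsmul, nsmul_eq_mul] at e2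
    have e3 := h w
    rw [mult_mul w hc' hQ0]
    push_cast at e2
    omega
  have hI0 : I ≠ ⊥ := by
    rintro rfl
    exact mul_ne_zero hc' hQ0 (by rw [hI]; simp)
  obtain ⟨-, -, -, -, -, hnm, -⟩ := hQ.invol k D s τ hq
  have ha' : (a : k) ≠ 0 := by simpa using ha
  have hb' : (b : k) ≠ 0 := by simpa using hb
  have hb'' : τ b ≠ 0 := by simpa using hb'
  have key : ∀ α ∈ I, ∀ β ∈ I, ∀ m : ℤ, m ≠ 0 → (α : k) * τ β - τ α * β = m * s →
      (m : k) ^ 3 = (Ideal.absNorm Q : ℕ) * ((a * b ^ 2 : k) * τ (a * b ^ 2)) →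
      ∃ f, Att s τ (Ideal.absNorm Q) (mkI a ha - mkI b hb).val f := by
    intro α hα β hβ m hm det cube
    have hint : ∀ i : Fin 4, IsIntegral ℤ
        (((α : k) / b) ^ (3 - i.1) * ((β : k) / b) ^ i.1 / (mkI a ha - mkI b hb).val) := by
      intro i
      have hi : 3 - i.1 + i.1 = 3 := by omega
      have h1 : α ^ (3 - i.1) * β ^ i.1 ∈ Ideal.span {a * b ^ 2} := by
        refine Ideal.mul_le_left (J := Q) ?_
        rw [hI, ← hi, pow_add, hi]
        exact Ideal.mul_mem_mul (Ideal.pow_mem_pow hα _) (Ideal.pow_mem_pow hβ _)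
      obtain ⟨c, hc1⟩ := Ideal.mem_span_singleton'.1 h1
      have h2 := congrArg (fun t : 𝓞 k => (t : k)) hc1
      simp only [map_mul, map_pow] at h2
      have h3 : ((α : k) / b) ^ (3 - i.1) * ((β : k) / b) ^ i.1 / (mkI a ha - mkI b hb).val =
          (c : k) := by
        rw [div_pow, div_pow, div_mul_div_comm, ← pow_add, hi, ← h2]
        simp only [val_mkI, Un.val_sub]
        field_simp
      rw [h3]
      exact RingOfIntegers.isIntegral_coe c
    choose t f ht hf using fun i => hQ.int k D s τ hq _ (hint i)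
    have hN : Algebra.norm ℚ (b : k) ≠ 0 := by simpa using hb'
    have hN' : (((m : ℚ) / Algebra.norm ℚ (b : k) : ℚ) : k) = m / (b * τ b) := by
      push_cast
      rw [hnm]
    refine ⟨f, Un.val_ne _, α / b, β / b, m / Algebra.norm ℚ (b : k),
      div_ne_zero (by exact_mod_cast hm) hN, ?_, ?_, fun i => ⟨hint i, (hf i).symm⟩⟩
    · rw [hN', map_div₀, map_div₀]
      field_simp
      linear_combination det
    · rw [hN', div_pow, cube]
      simp only [val_mkI, Un.val_sub, map_div₀, map_mul, map_pow]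
      field_simp
  obtain ⟨α, hα, β, hβ, det⟩ := hQ.basis k D s τ hq I hI0
  have hN0 : (Ideal.absNorm I : ℤ) ≠ 0 := by
    have : Ideal.absNorm I ≠ 0 := fun h0 => hI0 (Ideal.absNorm_eq_zero_iff.1 h0)
    exact_mod_cast this
  have e1 : Ideal.absNorm I ^ 3 =
      (Algebra.norm ℤ (a * b ^ 2)).natAbs * Ideal.absNorm Q := by
    rw [← map_pow, ← hI, map_mul, Ideal.absNorm_span_singleton]
  have e2 : ((Algebra.norm ℤ (a * b ^ 2) : ℤ) : k) = (a * b ^ 2 : k) * τ (a * b ^ 2) := by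
    rw [← hnm, ← Rat.cast_intCast (α := k), Algebra.coe_norm_int]
    simp
  have e3 : ((Ideal.absNorm I : ℕ) : k) ^ 3 =
      (((Algebra.norm ℤ (a * b ^ 2)).natAbs : ℤ) : k) * (Ideal.absNorm Q : ℕ) := by
    exact_mod_cast congrArg (Nat.cast : ℕ → k) e1
  rcases Int.natAbs_eq (Algebra.norm ℤ (a * b ^ 2)) with h1 | h1
  · refine key α hα β hβ (Ideal.absNorm I) hN0 (by exact_mod_cast det) ?_
    rw [← h1, e2] at e3
    push_cast
    linear_combination e3
  · refine key β hβ α hα (-Ideal.absNorm I) (neg_ne_zero.2 hN0) ?_ ?_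
    · push_cast
      linear_combination -det
    · rw [← neg_eq_iff_eq_neg] at h1
      rw [← h1, Int.cast_neg, e2] at e3
      push_cast
      linear_combination -e3

theorem rowATT (hQ : RowQB) : RowATT where
  act k _ _ s τ q δ f h a b c d e := by
    obtain ⟨α, β, n, h⟩ := att_iff.1 h
    exact att_iff.2 ⟨_, _, _, h.act a b c d e⟩
  dsc k _ _ D s τ q δ f hq h := by
    obtain ⟨α, β, n, h⟩ := att_iff.1 h
    have := h.dsc (hQ.invol k D s τ hq).2.2.2.1
    rw [hq.sq] at this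
    exact_mod_cast this
  aniso k _ _ D s τ q δ f hq h hc := by
    obtain ⟨α, β, n, h⟩ := att_iff.1 h
    exact h.aniso (hQ.invol k D s τ hq).2.2.2.1 hc
  inj k _ _ D s τ q δ δ' f hq h h' := by
    obtain ⟨α, β, n, h⟩ := att_iff.1 h
    obtain ⟨α', β', n', h'⟩ := att_iff.1 h'
    have hs := (hQ.invol k D s τ hq).2.2.2.1
    have e := mul_left_cancel₀ h.hq ((h.cov hs).symm.trans (h'.cov hs))
    have e1 : α ^ 3 / δ = α' ^ 3 / δ' := by linear_combination (-1 / 2 : k) * e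
    have h0 : α' ≠ 0 := fun h0 =>
      one_ne_zero (h'.indep hs 1 0 (by simp [h0])).1
    refine ⟨α / α', ?_⟩
    rw [div_eq_div_iff h.hd h'.hd] at e1
    field_simp
    linear_combination -e1
  ex := ex hQ

end Pool.Agent.MP_1246c0_nt.H5
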